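import Pool.Agent.Helper19_RFK.Stmts

/-! # RFK (MP_ccba21_an): module CNV -/

set_option autoImplicit false

open MeasureTheory Set

namespace Pool.Agent.RFK.H21

open Pool.Agent.RFK

theorem Adm_bound {L : NNReal} {ρ : ℝ} {g : ℂ → ℝ} (hg : Adm L ρ g) :
    ∃ C : ℝ, 0 ≤ C ∧ ∀ x, |g x| ≤ C := by
  refine ⟨2 * L * |ρ|, by positivity, fun x => ?_⟩
  by_cases hx : ρ ≤ ‖x‖
  · rw [hg.supp x hx, abs_zero]; positivity
  · push Not at hx
    have h0 : g (ρ : ℂ) = 0 := hg.supp _ (by rw [Complex.norm_real]; exact le_abs_self ρ)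
    have h1 := hg.lip.dist_le_mul x (ρ : ℂ)
    rw [h0, Real.dist_eq, sub_zero] at h1
    refine h1.trans ?_
    have h2 : dist x (ρ : ℂ) ≤ ‖x‖ + ‖(ρ : ℂ)‖ := by rw [dist_eq_norm]; exact norm_sub_le _ _
    rw [Complex.norm_real, Real.norm_eq_abs] at h2
    have h3 : ‖x‖ ≤ |ρ| := hx.le.trans (le_abs_self ρ)
    have h4 : dist x (ρ : ℂ) ≤ 2 * |ρ| := by linarith
    calc (L : ℝ) * dist x (ρ : ℂ) ≤ (L : ℝ) * (2 * |ρ|) := by gcongr
      _ = _ := by ring

theorem cnv (hq : QkpStmt) (hm : MviStmt) (ha : ApxStmt) : CnvStmt := by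
  intro E u L ρ g hE hbd hu hg hu0 r hr
  obtain ⟨q1, q2, q3, q4, q5, q6⟩ := hq r hr
  obtain ⟨C, hC0, hC⟩ := Adm_bound hg
  have hgc : Continuous g := hg.lip.continuous
  have : IsFiniteMeasure (volume.restrict E) := by
    refine ⟨?_⟩
    rw [Measure.restrict_apply_univ]
    exact hbd.measure_lt_top
  have hu1 : Integrable u (volume.restrict E) := hu.integrable one_le_two
  -- integrability on the product
  have hqx : ∀ y : ℂ, Integrable (fun x => qk r (x - y)) volume := fun y => q5.comp_sub_right y
  have hmeas : AEStronglyMeasurable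
      (fun z : ℂ × ℂ => g z.1 * (qk r (z.1 - z.2) * u z.2))
      (volume.prod (volume.restrict E)) := by
    have h1 : AEStronglyMeasurable (fun z : ℂ × ℂ => g z.1) (volume.prod (volume.restrict E)) :=
      (hgc.comp continuous_fst).aestronglyMeasurable
    have h2 : AEStronglyMeasurable (fun z : ℂ × ℂ => qk r (z.1 - z.2))
        (volume.prod (volume.restrict E)) :=
      (q4.comp (measurable_fst.sub measurable_snd)).aestronglyMeasurable
    have h3 : AEStronglyMeasurable (fun z : ℂ × ℂ => u z.2) (volume.prod (volume.restrict E)) :=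
      hu.1.comp_snd
    exact h1.mul (h2.mul h3)
  have hFx : ∀ y : ℂ, Integrable (fun x => g x * (qk r (x - y) * u y)) volume := by
    intro y
    refine Integrable.bdd_mul (c := C) ((hqx y).mul_const (u y)) hgc.aestronglyMeasurable ?_
    exact Filter.Eventually.of_forall fun x => hC x
  have hint : Integrable (fun z : ℂ × ℂ => g z.1 * (qk r (z.1 - z.2) * u z.2))
      (volume.prod (volume.restrict E)) := by
    rw [integrable_prod_iff' hmeas]
    refine ⟨Filter.Eventually.of_forall hFx, ?_⟩
    refine Integrable.mono' (g := fun y => C * (∫ x, ‖qk r x‖) * ‖u y‖) (hu1.norm.const_mul _)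
      ?_ ?_
    · exact (hmeas.norm.prod_swap).integral_prod_right'
    · refine Filter.Eventually.of_forall fun y => ?_
      rw [Real.norm_of_nonneg (integral_nonneg fun x => norm_nonneg _)]
      have h1 : ∫ x, ‖qk r x‖ = ∫ x, ‖qk r (x - y)‖ :=
        (integral_sub_right_eq_self (fun x => ‖qk r x‖) y).symm
      rw [h1, mul_assoc, ← integral_mul_const, ← integral_const_mul]
      refine integral_mono (hFx y).norm (((hqx y).norm.mul_const _).const_mul _) fun x => ?_
      show ‖g x * (qk r (x - y) * u y)‖ ≤ C * (‖qk r (x - y)‖ * ‖u y‖)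
      rw [norm_mul, norm_mul]
      exact mul_le_mul_of_nonneg_right (hC x) (by positivity)
  -- Fubini
  have hfub : (∫ x, g x * lap r (pot E u) x) =
      ∫ y in E, u y * ∫ x, qk r (x - y) * g x := by
    calc (∫ x, g x * lap r (pot E u) x) = ∫ x, ∫ y in E, g x * (qk r (x - y) * u y) := by
          refine integral_congr_ae (Filter.Eventually.of_forall fun x => ?_)
          show g x * lap r (pot E u) x = ∫ y in E, g x * (qk r (x - y) * u y)
          rw [hm E u hE hbd hu r hr x, integral_const_mul]
      _ = ∫ y in E, ∫ x, g x * (qk r (x - y) * u y) :=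
          integral_integral_swap hint
      _ = ∫ y in E, u y * ∫ x, qk r (x - y) * g x := by
          refine integral_congr_ae (Filter.Eventually.of_forall fun y => ?_)
          show (∫ x, g x * (qk r (x - y) * u y)) = u y * ∫ x, qk r (x - y) * g x
          rw [← integral_const_mul]
          refine integral_congr_ae (Filter.Eventually.of_forall fun x => ?_)
          show g x * (qk r (x - y) * u y) = u y * (qk r (x - y) * g x)
          ring
  have hug : Integrable (fun y => u y * g y) (volume.restrict E) := by
    have := Integrable.bdd_mul (c := C) hu1 (hgc.aestronglyMeasurable (μ := volume.restrict E))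
      (Filter.Eventually.of_forall fun x => hC x)
    refine this.congr (Filter.Eventually.of_forall fun y => ?_)
    show g y * u y = u y * g y
    ring
  have huG : Integrable (fun y => u y * ∫ x, qk r (x - y) * g x) (volume.restrict E) := by
    have h1 := hint.integral_prod_right
    refine h1.congr (Filter.Eventually.of_forall fun y => ?_)
    show (∫ x, g x * (qk r (x - y) * u y)) = u y * ∫ x, qk r (x - y) * g x
    rw [← integral_const_mul]
    refine integral_congr_ae (Filter.Eventually.of_forall fun x => ?_)
    show g x * (qk r (x - y) * u y) = u y * (qk r (x - y) * g x)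
    ring
  rw [hfub, ← integral_const_mul, ← integral_sub huG (hug.const_mul _), ← integral_const_mul,
    ← Real.norm_eq_abs]
  refine norm_integral_le_of_norm_le (hu1.const_mul _) ?_
  filter_upwards [hu0] with y hy
  have h1 := ha L ρ g hg r hr y
  rw [Real.norm_eq_abs,
    show u y * (∫ x, qk r (x - y) * g x) - Nr r * (u y * g y) =
      u y * ((∫ x, qk r (x - y) * g x) - Nr r * g y) by ring, abs_mul, abs_of_nonneg hy, mul_comm]
  exact mul_le_mul_of_nonneg_right h1 hy

end Pool.Agent.RFK.H21
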