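import Pool.Agent.Helper19_RFK.Stmts

/-! # RFK (MP_ccba21_an): module MAXP -/

set_option autoImplicit false

open MeasureTheory Set

namespace Pool.Agent.RFK.H21

open Pool.Agent.RFK

theorem maxp (hq : QkpStmt) : MaxpStmt := by
  intro E p κ hE hp hκ hlap x₀ hmin hneg
  have hclopen : IsClopen {x : ℂ | p x = p x₀} := by
    refine ⟨isClosed_eq hp continuous_const, ?_⟩
    rw [Metric.isOpen_iff]
    intro x hx
    have hx' : p x = p x₀ := hx
    have hnx : p x < 0 := by rw [hx']; exact hneg
    obtain ⟨r, hr0, hr⟩ := Metric.isOpen_iff.mp (isOpen_lt hp continuous_const) x hnx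
    refine ⟨r, hr0, ?_⟩
    obtain ⟨q1, q2, -, -, -, -⟩ := hq r hr0
    have hL : 0 ≤ᵐ[volume.restrict (Metric.ball (0 : ℂ) r)] fun h => p (x + h) - p x :=
      Filter.Eventually.of_forall fun h => by
        show 0 ≤ p (x + h) - p x
        have := hmin (x + h)
        linarith
    have hcont : Continuous fun h : ℂ => p (x + h) - p x := by fun_prop
    have hint : IntegrableOn (fun h : ℂ => p (x + h) - p x) (Metric.ball (0 : ℂ) r) volume :=
      (hcont.continuousOn.integrableOn_compact (isCompact_closedBall (0 : ℂ) r)).mono_set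
        Metric.ball_subset_closedBall
    have hge : 0 ≤ lap r p x := integral_nonneg_of_ae hL
    have hle : lap r p x ≤ 0 := by
      rw [hlap r hr0 x]
      have h1 : ∫ y in E, qk r (x - y) * p y ≤ 0 := by
        apply integral_nonpos_of_ae
        apply ae_restrict_of_ae
        have hne : ∀ᵐ y : ℂ ∂volume, y ≠ x := by
          simp [ae_iff, measure_singleton]
        filter_upwards [hne] with y hy
        show qk r (x - y) * p y ≤ 0
        by_cases hyr : r ≤ ‖x - y‖
        · rw [q2 _ hyr, zero_mul]
        · push Not at hyr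
          have hpy : p y < 0 := by
            apply hr
            rw [Metric.mem_ball, dist_eq_norm, norm_sub_rev]
            exact hyr
          exact mul_nonpos_of_nonneg_of_nonpos (q1 _ (sub_ne_zero.mpr (Ne.symm hy))) hpy.le
      exact mul_nonpos_of_nonneg_of_nonpos hκ.le h1
    have h0 : lap r p x = 0 := le_antisymm hle hge
    have hae := (setIntegral_eq_zero_iff_of_nonneg_ae hL hint).mp h0
    have heq : EqOn (fun h => p (x + h) - p x) 0 (Metric.ball (0 : ℂ) r) :=
      Measure.eqOn_open_of_ae_eq hae Metric.isOpen_ball hcont.continuousOn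
        continuousOn_const
    intro y hy
    have := heq (show y - x ∈ Metric.ball (0 : ℂ) r by
      rw [mem_ball_zero_iff, ← dist_eq_norm]; exact hy)
    simp only [add_sub_cancel, Pi.zero_apply, sub_eq_zero] at this
    show p y = p x₀
    rw [this, hx']
  have huniv := hclopen.eq_univ ⟨x₀, rfl⟩
  intro x
  have : x ∈ {x : ℂ | p x = p x₀} := by rw [huniv]; trivial
  exact this

end Pool.Agent.RFK.H21
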